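import Pool.Agent.Helper41.Girth4.Stmts
import Pool.Agent.Helper41.Girth4.Prob

/-!
# Packets G and H for MP_246f82_co: uniformity under injections and the symmetric local lemma
-/

namespace Pool.Agent.Helper51.Girth4

open Pool.Agent.Helper41.Girth4

universe u

theorem stmtUnif : StmtUnif.{u} := by
  classical
  intro A B L _ _ _ _ e he Φ
  let p : B → Prop := fun b => b ∈ Set.range e
  let E : (B → L) ≃ ({b // p b} → L) × ({b // ¬ p b} → L) := Equiv.piEquivPiSubtypeProd p _
  let e' : A ≃ {b // p b} := Equiv.ofInjective e he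
  have h1 : Pr (fun ω : B → L => Φ (ω ∘ e))
      = Pr (fun z : ({b // p b} → L) × ({b // ¬ p b} → L) => Φ (z.1 ∘ e')) := by
    rw [← Pr_equiv E]
    apply Pr_congr
    intro ω
    rfl
  rw [h1, Pr_fst (fun y : {b // p b} → L => Φ (y ∘ e'))]
  rw [← Pr_equiv (Equiv.arrowCongr e' (Equiv.refl L)) (fun y : {b // p b} → L => Φ (y ∘ e'))]
  apply Pr_congr
  intro y
  have : ((Equiv.arrowCongr e' (Equiv.refl L)) y) ∘ e' = y := by
    funext a
    simp
  rw [this]

/-- Independence of events depending on disjoint sets of coordinates. -/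
theorem Pr_indep {I : Type u} {L : Type} [Finite I] [Finite L] [Nonempty L] (S : Set I)
    (A B : (I → L) → Prop)
    (hA : ∀ ω ω', (∀ i ∈ S, ω i = ω' i) → A ω → A ω')
    (hB : ∀ ω ω', (∀ i, i ∉ S → ω i = ω' i) → B ω → B ω') :
    Pr (fun ω => A ω ∧ B ω) = Pr A * Pr B := by
  classical
  obtain ⟨l⟩ := ‹Nonempty L›
  haveI : Nonempty L := ⟨l⟩
  let p : I → Prop := fun b => b ∈ S
  let E : (I → L) ≃ ({b // p b} → L) × ({b // ¬ p b} → L) := Equiv.piEquivPiSubtypeProd p _
  let A' : ({b // p b} → L) → Prop := fun y => A (E.symm (y, fun _ => l))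
  let B' : ({b // ¬ p b} → L) → Prop := fun y => B (E.symm (fun _ => l, y))
  have hE1 : ∀ y z i, (h : i ∈ S) → E.symm (y, z) i = y ⟨i, h⟩ := by
    intro y z i h
    simp [E, p, Equiv.piEquivPiSubtypeProd, h]
  have hE2 : ∀ y z i, (h : i ∉ S) → E.symm (y, z) i = z ⟨i, h⟩ := by
    intro y z i h
    simp [E, p, Equiv.piEquivPiSubtypeProd, h]
  have h1 : ∀ ω, A ω ↔ A' (E ω).1 := by
    intro ω
    constructor
    · intro h
      refine hA ω _ ?_ h
      intro i hi
      rw [hE1 _ _ i hi]
      rfl
    · intro h
      refine hA _ ω ?_ h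
      intro i hi
      rw [hE1 _ _ i hi]
      rfl
  have h2 : ∀ ω, B ω ↔ B' (E ω).2 := by
    intro ω
    constructor
    · intro h
      refine hB ω _ ?_ h
      intro i hi
      rw [hE2 _ _ i hi]
      rfl
    · intro h
      refine hB _ ω ?_ h
      intro i hi
      rw [hE2 _ _ i hi]
      rfl
  have e1 : Pr A = Pr A' := by
    rw [← Pr_fst (β := {b // ¬ p b} → L) A', ← Pr_equiv E]
    exact Pr_congr h1
  have e2 : Pr B = Pr B' := by
    rw [← Pr_snd (α := {b // p b} → L) B', ← Pr_equiv E]
    exact Pr_congr h2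
  rw [e1, e2, ← Pr_prod, ← Pr_equiv E]
  apply Pr_congr
  intro ω
  rw [h1 ω, h2 ω]

theorem stmtLLL : StmtLLL.{u} := by
  classical
  intro I J L _ _ _ _ S A hdep p d hp hd hdeg h4
  have := Fintype.ofFinite J
  have hp0 : ∀ _j : J, 0 ≤ p := fun j => (Pr_nonneg _).trans (hp j)
  let Q : Finset J → ℝ := fun T => Pr (fun ω => ∀ j ∈ T, ¬ A j ω)
  have hQmono : ∀ T T' : Finset J, T ⊆ T' → Q T' ≤ Q T := by
    intro T T' h
    exact Pr_mono fun ω hω j hj => hω j (h hj)
  have hins : ∀ T j, Q (insert j T) = Q T - Pr (fun ω => A j ω ∧ ∀ i ∈ T, ¬ A i ω) := by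
    intro T j
    have h1 := Pr_and_not (fun ω : I → L => ∀ i ∈ T, ¬ A i ω) (A j)
    have h2 : Q (insert j T) = Pr (fun ω => (∀ i ∈ T, ¬ A i ω) ∧ ¬ A j ω) := by
      apply Pr_congr
      intro ω
      simp only [Finset.mem_insert, forall_eq_or_imp]
      tauto
    have h3 : Pr (fun ω => A j ω ∧ ∀ i ∈ T, ¬ A i ω) = Pr (fun ω => (∀ i ∈ T, ¬ A i ω) ∧ A j ω) :=
      Pr_congr fun ω => by tauto
    rw [h2, h1, h3]
  have key : ∀ n : ℕ, ∀ T : Finset J, T.card ≤ n →
      0 < Q T ∧ ∀ j, Pr (fun ω => A j ω ∧ ∀ i ∈ T, ¬ A i ω) ≤ 2 * p * Q T := by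
    intro n
    induction n with
    | zero =>
      intro T hT
      have : T = ∅ := Finset.card_eq_zero.1 (Nat.le_zero.1 hT)
      subst this
      have hQ : Q ∅ = 1 := by
        have : Q ∅ = Pr (fun _ : I → L => True) := Pr_congr fun ω => by simp
        rw [this, Pr_true]
      rw [hQ]
      refine ⟨one_pos, fun j => ?_⟩
      have : Pr (fun ω => A j ω ∧ ∀ i ∈ (∅ : Finset J), ¬ A i ω) = Pr (A j) :=
        Pr_congr fun ω => by simp
      rw [this]
      have := hp j
      have := hp0 j
      linarith
    | succ n ih =>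
      intro T hT
      have hpos : 0 < Q T := by
        rcases T.eq_empty_or_nonempty with rfl | ⟨j, hj⟩
        · exact (ih ∅ (by simp)).1
        · have hc : (T.erase j).card ≤ n := by
            have := Finset.card_erase_of_mem hj
            omega
          have h1 := ih (T.erase j) hc
          have h2 := hins (T.erase j) j
          rw [Finset.insert_erase hj] at h2
          have h3 := h1.2 j
          have h4' : 4 * p ≤ 1 := by
            have : 4 * p * 1 ≤ 4 * p * d := by
              have := hp0 j
              gcongr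
              exact_mod_cast hd
            linarith
          rw [h2]
          nlinarith [h1.1]
      refine ⟨hpos, fun j => ?_⟩
      -- split
      let T1 := T.filter fun i => ¬ Disjoint (S j) (S i)
      let T2 := T.filter fun i => Disjoint (S j) (S i)
      have hT2 : T2 ⊆ T := Finset.filter_subset _ _
      have hT12 : ∀ i ∈ T, i ∈ T1 ∨ i ∈ T2 := by
        intro i hi
        by_cases h : Disjoint (S j) (S i)
        · right; simp [T2, hi, h]
        · left; simp [T1, hi, h]
      have hind : Pr (fun ω => A j ω ∧ ∀ i ∈ T2, ¬ A i ω) = Pr (A j) * Q T2 := by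
        apply Pr_indep (S j) (A j) (fun ω => ∀ i ∈ T2, ¬ A i ω) (hdep j)
        intro ω ω' h hω i hi hA
        have hi' : Disjoint (S j) (S i) := (Finset.mem_filter.1 hi).2
        refine hω i hi (hdep i ω' ω ?_ hA)
        intro a ha
        exact (h a (fun haj => Set.disjoint_left.1 hi' haj ha)).symm
      have hle : Pr (fun ω => A j ω ∧ ∀ i ∈ T, ¬ A i ω) ≤ p * Q T2 := by
        refine le_trans (Pr_mono (B := fun ω => A j ω ∧ ∀ i ∈ T2, ¬ A i ω) ?_) ?_
        · intro ω hω
          exact ⟨hω.1, fun i hi => hω.2 i (hT2 hi)⟩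
        · rw [hind]
          exact mul_le_mul_of_nonneg_right (hp j) (Pr_nonneg _)
      have hc1 : (T1.card : ℝ) ≤ d := by
        have h1 : T1.card ≤ Nat.card {j' // ¬ Disjoint (S j) (S j')} := by
          rw [Nat.card_eq_fintype_card, Fintype.card_subtype]
          apply Finset.card_le_card
          intro i hi
          simp [T1] at hi
          simp [hi.2]
        exact_mod_cast h1.trans (hdeg j)
      -- Q T ≥ Q T2 / 2
      have hhalf : Q T2 ≤ 2 * Q T := by
        rcases T1.eq_empty_or_nonempty with h1 | ⟨i0, hi0⟩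
        · have : T ⊆ T2 := by
            intro i hi
            rcases hT12 i hi with h | h
            · rw [h1] at h; simp at h
            · exact h
          have h2 := hQmono T T2 this
          linarith
        · have hlt : T2.card ≤ n := by
            have h2 : T2.card < T.card := by
              apply Finset.card_lt_card
              refine ⟨hT2, fun h => ?_⟩
              have hi0T : i0 ∈ T := (Finset.mem_filter.1 hi0).1
              have h3 := (Finset.mem_filter.1 (h hi0T)).2
              exact (Finset.mem_filter.1 hi0).2 h3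
            omega
          have hI := ih T2 hlt
          have hsum : Q T2 ≤ Q T + ∑ i ∈ T1, Pr (fun ω => A i ω ∧ ∀ k ∈ T2, ¬ A k ω) := by
            refine le_trans ?_ (add_le_add_right (Pr_exists_le T1 _) _)
            refine le_trans ?_ (Pr_or_le _ _)
            apply Pr_mono
            intro ω hω
            by_cases h : ∃ i ∈ T1, A i ω
            · right
              obtain ⟨i, hi, hA⟩ := h
              exact ⟨i, hi, hA, hω⟩
            · left
              intro i hi
              rcases hT12 i hi with h' | h'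
              · intro hA
                exact h ⟨i, h', hA⟩
              · exact hω i h'
          have hb : ∑ i ∈ T1, Pr (fun ω => A i ω ∧ ∀ k ∈ T2, ¬ A k ω) ≤ T1.card * (2 * p * Q T2) := by
            rw [← nsmul_eq_mul]
            exact Finset.sum_le_card_nsmul _ _ _ fun i _ => hI.2 i
          have hb2 : (T1.card : ℝ) * (2 * p * Q T2) ≤ d * (2 * p * Q T2) := by
            have := hp0 j
            have := hI.1
            gcongr
          have hb3 : (d : ℝ) * (2 * p * Q T2) ≤ (1 / 2) * Q T2 := by
            have := hI.1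
            nlinarith
          linarith
      have := hp0 j
      calc Pr (fun ω => A j ω ∧ ∀ i ∈ T, ¬ A i ω) ≤ p * Q T2 := hle
        _ ≤ p * (2 * Q T) := by gcongr
        _ = 2 * p * Q T := by ring
  have hfin := (key _ (Finset.univ : Finset J) le_rfl).1
  by_contra hcon
  push Not at hcon
  have : Q Finset.univ = Pr (fun _ : I → L => False) := by
    apply Pr_congr
    intro ω
    obtain ⟨j, hj⟩ := hcon ω
    constructor
    · intro h
      exact h j (Finset.mem_univ j) hj
    · intro h
      exact h.elim
  rw [this, Pr_false] at hfin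
  exact lt_irrefl _ hfin

end Pool.Agent.Helper51.Girth4
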