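import Pool.Agent.Helper41.Girth4.XCert

/-!
# Packet F1 of MP_246f82_co: a compact certificate gives a certificate
-/

namespace Pool.Agent.Helper51.Girth4.XC

open Finset Pool.Agent.Helper41.Girth4

theorem yG_congr (m : ℕ) (q q' : ℕ → ℕ → ℝ) (δ : ℕ → ℝ) :
    ∀ T : ℕ, (∀ t < T, q t = q' t) → yG m q δ T = yG m q' δ T
  | 0, _ => rfl
  | T + 1, h => by
      have ih := yG_congr m q q' δ T (fun t ht => h t (by omega))
      simp only [yG]
      rw [ih, h T (by omega)]

theorem yv_congr (P : Par) (n n' : ℕ → ℕ) (T : ℕ) (h : ∀ t < T, n t = n' t) :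
    yv P 2 n T = yv P 2 n' T := by
  unfold yv
  refine yG_congr 2 _ _ _ T ?_
  intro t ht
  funext j
  rw [h t ht]

theorem nn_right {c c' T : ℕ} (hc : T ≤ c) (hc' : T ≤ c') (a : ℕ) :
    ∀ t ≤ T, nn a c t = nn a c' t := by
  intro t ht
  unfold nn
  rw [if_pos (le_trans ht hc), if_pos (le_trans ht hc')]

theorem nn_left {a a' T : ℕ} (ha : T ≤ a) (ha' : T ≤ a') (c : ℕ) :
    ∀ t ≤ T, nn a c t = nn a' c t := by
  intro t ht
  unfold nn
  rw [if_pos (le_trans ht ha), if_pos (le_trans ht ha')]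

section W

variable (P : Par) {a a' c c' T : ℕ}

theorem wN_eq (h : ∀ t ≤ T, nn a c t = nn a' c' t) : wN P a c T = wN P a' c' T := by
  have h1 := h T le_rfl
  have h2 := yv_congr P (nn a c) (nn a' c') T (fun t ht => h t ht.le)
  unfold wN
  rw [h2]
  simp only [h1]

theorem wA_eq (h : ∀ t ≤ T, nn a c t = nn a' c' t) : wA P a c T = wA P a' c' T := by
  have h1 := h T le_rfl
  have h2 := yv_congr P (nn a c) (nn a' c') T (fun t ht => h t ht.le)
  unfold wA
  rw [h2]
  simp only [h1]

theorem wS_eq (h : ∀ t ≤ T, nn a c t = nn a' c' t) : wS P a c T = wS P a' c' T := by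
  have h1 := h T le_rfl
  have h2 := yv_congr P (nn a c) (nn a' c') T (fun t ht => h t ht.le)
  have h3 := wA_eq P h
  unfold wS
  rw [h2, h3]
  simp only [h1]

end W

theorem oN_min (P : Par) (x : XC) (T a : ℕ) : oN P x T (min a T) = oN P x T a := by
  rcases le_total a T with h | h
  · rw [min_eq_left h]
  · rw [min_eq_right h]
    unfold oN
    have h1 : ∀ c, wN P T c T = wN P a c T := fun c => wN_eq P (nn_left le_rfl h c)
    simp only [h1]

theorem o0_min (P : Par) (x : XC) (T a : ℕ) : o0 P x T (min a T) = o0 P x T a := by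
  rcases le_total a T with h | h
  · rw [min_eq_left h]
  · rw [min_eq_right h]
    unfold o0
    have h1 : ∀ c, wS P T c T = wS P a c T := fun c => wS_eq P (nn_left le_rfl h c)
    have h2 : ∀ c, wA P T c T = wA P a c T := fun c => wA_eq P (nn_left le_rfl h c)
    simp only [h1, h2]

theorem split_sum (f : ℕ → ℝ) {T K : ℕ} (h : T ≤ K) :
    ∑ c ∈ Finset.range (K + 1), f c =
      ∑ c ∈ Finset.range T, f c + f T + ∑ c ∈ Finset.Ioc T K, f c := by
  have h1 : Finset.Ioc T K = Finset.Ico (T + 1) (K + 1) := by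
    ext c
    simp only [Finset.mem_Ioc, Finset.mem_Ico]
    omega
  rw [h1, ← Finset.sum_range_succ, Finset.sum_range_add_sum_Ico]
  omega

theorem exists_eps (s : Finset ℕ) (f : ℕ → ℝ) (h : ∀ i ∈ s, 0 < f i) :
    ∃ e : ℝ, 0 < e ∧ ∀ i ∈ s, e ≤ f i := by
  classical
  induction s using Finset.induction_on with
  | empty => exact ⟨1, one_pos, fun i hi => by simp at hi⟩
  | insert b s hb ih =>
      obtain ⟨e, he, hs⟩ := ih (fun i hi => h i (Finset.mem_insert_of_mem hi))
      refine ⟨min e (f b), lt_min he (h b (Finset.mem_insert_self b s)), ?_⟩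
      intro i hi
      rcases Finset.mem_insert.1 hi with rfl | hi
      · exact min_le_right _ _
      · exact le_trans (min_le_left _ _) (hs i hi)

theorem bet_nonneg (P : Par) : 0 ≤ bet P := by
  have hM : 0 < P.M := Nat.pos_of_ne_zero (NeZero.ne P.M)
  have h1 : (1 : ℝ) ≤ P.M := by exact_mod_cast hM
  unfold bet
  apply div_nonneg
  · linarith
  · linarith

section Main

variable {P : Par} {x : XC} {μ₀ : ℝ} (h : XCert P x μ₀)

include h

theorem O3_nonneg {T : ℕ} (hT : T ≤ P.K) : 0 ≤ x.O3 T := by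
  rcases lt_or_eq_of_le hT with h1 | h1
  · exact (h.pos3 T h1).le
  · rw [h1]; exact h.non3

theorem sum_nonneg' {T : ℕ} (hT : T ≤ P.K) (w : ℕ → ℝ) (hw : ∀ c, 0 ≤ w c) :
    0 ≤ ∑ c ∈ Finset.range T, w c * (x.HN c + x.H0 c) := by
  apply Finset.sum_nonneg
  intro c hc
  have hc' := Finset.mem_range.1 hc
  exact mul_nonneg (hw c) (add_nonneg (h.posN c (by omega)).le (h.pos0 c (by omega)).le)

theorem oN_nonneg {T : ℕ} (hT : T ≤ P.K) (a : ℕ) : 0 ≤ oN P x T a := by
  unfold oN
  apply add_nonneg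
  · exact sum_nonneg' h hT _ (fun c => h.nonwN a c T hT)
  · apply mul_nonneg (h.nonwN a P.K T hT)
    apply add_nonneg _ (O3_nonneg h hT)
    apply add_nonneg (h.posN T hT).le
    split_ifs with h1
    · exact (h.pos0 T h1).le
    · exact le_rfl

theorem o0_nonneg {T : ℕ} (hT : T < P.K) (a : ℕ) : 0 ≤ o0 P x T a := by
  unfold o0
  have hb := bet_nonneg P
  have hS := h.nonwS a P.K T hT
  have hA := h.nonwA a P.K T hT
  have h0 := (h.pos0 T hT).le
  have h1 := (h.pos1 T hT).le
  have hN := (h.posN T hT.le).le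
  have h3 := (h.pos3 T hT).le
  have hM : (0 : ℝ) ≤ 1 / P.M := by positivity
  have hs := sum_nonneg' h hT.le _ (fun c => h.nonwS a c T hT)
  exact add_nonneg (add_nonneg (add_nonneg (add_nonneg hs (mul_nonneg hS (add_nonneg hN h3)))
    (mul_nonneg (mul_nonneg hb hS) h1)) (mul_nonneg (mul_nonneg hb hA) h0))
    (mul_nonneg (mul_nonneg hM hA) h1)

theorem o1_nonneg {T : ℕ} (hT : T < P.K) : 0 ≤ o1 P x T := by
  unfold o1
  have hb := bet_nonneg P
  have hA := h.nonwA T P.K T hT
  have h0 := (h.pos0 T hT).le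
  have h1 := (h.pos1 T hT).le
  have hN := (h.posN T hT.le).le
  have h3 := (h.pos3 T hT).le
  have hM : (0 : ℝ) ≤ 1 / P.M := by positivity
  have hs := sum_nonneg' h hT.le _ (fun c => h.nonwA T c T hT)
  exact add_nonneg (add_nonneg (add_nonneg (add_nonneg hs (mul_nonneg hA (add_nonneg hN h3)))
    (mul_nonneg (mul_nonneg hb hA) h1)) (mul_nonneg (mul_nonneg hb hA) h0))
    (mul_nonneg (mul_nonneg hM hA) h1)

end Main

/-- The functions. -/
noncomputable def gN (P : Par) (x : XC) (μ e : ℝ) (T a : ℕ) : ℝ :=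
  (if T ≤ P.K then oN P x T a / μ else 0) + e

/-- The functions. -/
noncomputable def g0 (P : Par) (x : XC) (μ e : ℝ) (T a : ℕ) : ℝ :=
  (if T < P.K then o0 P x T a / μ else 0) + e

/-- The functions. -/
noncomputable def g1 (P : Par) (x : XC) (μ e : ℝ) (T : ℕ) : ℝ :=
  (if T < P.K then o1 P x T / μ else 0) + e

/-- Packet F1. -/
theorem stmtXCert : StmtXCert := by
  intro P x μ₀ μ hμ₀ hμ h
  have hμp : 0 < μ := hμ₀.trans hμ
  set r : ℝ := 1 - μ₀ / μ with hr
  have hr0 : 0 < r := by
    have : μ₀ / μ < 1 := (div_lt_one hμp).2 hμ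
    linarith
  obtain ⟨e1, he1, he1'⟩ := exists_eps (Finset.range (P.K + 1)) (fun T => r * x.HN T)
    (fun T hT => mul_pos hr0 (h.posN T (by have := Finset.mem_range.1 hT; omega)))
  obtain ⟨e2, he2, he2'⟩ := exists_eps (Finset.range P.K) (fun T => r * x.H0 T)
    (fun T hT => mul_pos hr0 (h.pos0 T (Finset.mem_range.1 hT)))
  obtain ⟨e3, he3, he3'⟩ := exists_eps (Finset.range P.K) (fun T => r * x.H1 T)
    (fun T hT => mul_pos hr0 (h.pos1 T (Finset.mem_range.1 hT)))
  obtain ⟨e4, he4, he4'⟩ := exists_eps (Finset.range P.K) (fun T => r * x.O3 T)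
    (fun T hT => mul_pos hr0 (h.pos3 T (Finset.mem_range.1 hT)))
  have hK : (0 : ℝ) < 2 * ((P.K : ℝ) + 1) := by positivity
  obtain ⟨e, he, hee1, hee2, hee3, hee4⟩ : ∃ e : ℝ, 0 < e ∧ e ≤ e1 ∧ e ≤ e2 ∧ e ≤ e3 ∧
      e * (2 * ((P.K : ℝ) + 1)) ≤ e4 := by
    refine ⟨min (min e1 e2) (min e3 (e4 / (2 * ((P.K : ℝ) + 1)))),
      lt_min (lt_min he1 he2) (lt_min he3 (div_pos he4 hK)),
      (min_le_left _ _).trans (min_le_left _ _), (min_le_left _ _).trans (min_le_right _ _),
      (min_le_right _ _).trans (min_le_left _ _), ?_⟩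
    rw [← le_div_iff₀ hK]
    exact (min_le_right _ _).trans (min_le_right _ _)
  have hN : ∀ c ≤ P.K, ∀ T, c ≤ T → gN P x μ e c T ≤ x.HN c := by
    intro c hc T hcT
    have h1 := h.iN c hc
    have h2 := he1' c (Finset.mem_range.2 (by omega))
    have h3 : oN P x c T = oN P x c c := by
      rw [← oN_min P x c T, min_eq_right hcT]
    unfold gN
    rw [if_pos hc, h3]
    have h4 : oN P x c c / μ ≤ μ₀ / μ * x.HN c := by
      rw [div_mul_eq_mul_div]
      exact div_le_div_of_nonneg_right h1 hμp.le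
    have h5 : r * x.HN c = x.HN c - μ₀ / μ * x.HN c := by rw [hr]; ring
    linarith
  have h0 : ∀ c < P.K, ∀ T, c ≤ T → g0 P x μ e c T ≤ x.H0 c := by
    intro c hc T hcT
    have h1 := h.i0 c hc
    have h2 := he2' c (Finset.mem_range.2 hc)
    have h3 : o0 P x c T = o0 P x c c := by
      rw [← o0_min P x c T, min_eq_right hcT]
    unfold g0
    rw [if_pos hc, h3]
    have h4 : o0 P x c c / μ ≤ μ₀ / μ * x.H0 c := by
      rw [div_mul_eq_mul_div]
      exact div_le_div_of_nonneg_right h1 hμp.le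
    have h5 : r * x.H0 c = x.H0 c - μ₀ / μ * x.H0 c := by rw [hr]; ring
    linarith
  have h1 : ∀ c < P.K, g1 P x μ e c ≤ x.H1 c := by
    intro c hc
    have h1 := h.i1 c hc
    have h2 := he3' c (Finset.mem_range.2 hc)
    unfold g1
    rw [if_pos hc]
    have h4 : o1 P x c / μ ≤ μ₀ / μ * x.H1 c := by
      rw [div_mul_eq_mul_div]
      exact div_le_div_of_nonneg_right h1 hμp.le
    have h5 : r * x.H1 c = x.H1 c - μ₀ / μ * x.H1 c := by rw [hr]; ring
    linarith
  have h3 : ∀ T ≤ P.K,
      ∑ c ∈ Finset.Ioc T P.K, (gN P x μ e c T + if c < P.K then g0 P x μ e c T else 0) ≤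
        x.O3 T := by
    intro T hT
    rcases lt_or_eq_of_le hT with hT' | hT'
    · have h1 := h.i3 T hT'
      have h2 := he4' T (Finset.mem_range.2 hT')
      have h4 : ∑ c ∈ Finset.Ioc T P.K, (gN P x μ e c T + if c < P.K then g0 P x μ e c T else 0) ≤
          ∑ c ∈ Finset.Ioc T P.K,
            ((oN P x c T + if c < P.K then o0 P x c T else 0) / μ + 2 * e) := by
        apply Finset.sum_le_sum
        intro c hc
        have hc' := Finset.mem_Ioc.1 hc
        unfold gN g0
        rw [if_pos hc'.2]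
        split_ifs with h5
        · rw [add_div]; linarith
        · rw [add_zero, add_zero]; linarith
      have h5 : ∑ c ∈ Finset.Ioc T P.K,
            ((oN P x c T + if c < P.K then o0 P x c T else 0) / μ + 2 * e) =
          (∑ c ∈ Finset.Ioc T P.K, (oN P x c T + if c < P.K then o0 P x c T else 0)) / μ +
            ((P.K - T : ℕ) : ℝ) * (2 * e) := by
        rw [Finset.sum_add_distrib, Finset.sum_div, Finset.sum_const, Nat.card_Ioc, nsmul_eq_mul]
      have h6 : (∑ c ∈ Finset.Ioc T P.K, (oN P x c T + if c < P.K then o0 P x c T else 0)) / μ ≤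
          μ₀ / μ * x.O3 T := by
        rw [div_mul_eq_mul_div]
        exact div_le_div_of_nonneg_right h1 hμp.le
      have h7 : ((P.K - T : ℕ) : ℝ) * (2 * e) ≤ e * (2 * ((P.K : ℝ) + 1)) := by
        have h8 : ((P.K - T : ℕ) : ℝ) ≤ (P.K : ℝ) := by exact_mod_cast Nat.sub_le _ _
        nlinarith
      have h8 : r * x.O3 T = x.O3 T - μ₀ / μ * x.O3 T := by rw [hr]; ring
      linarith
    · rw [hT', Finset.Ioc_self, Finset.sum_empty]
      exact h.non3
  have hgen : ∀ T ≤ P.K, ∀ w : ℕ → ℝ, (∀ c, 0 ≤ w c) → (∀ c, T ≤ c → w c = w P.K) →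
      ∑ c ∈ Finset.range (P.K + 1),
        w c * (gN P x μ e c T + if c < P.K ∧ c ≠ T then g0 P x μ e c T else 0) ≤
      ∑ c ∈ Finset.range T, w c * (x.HN c + x.H0 c) + w P.K * (x.HN T + x.O3 T) := by
    intro T hT w hw hwT
    rw [split_sum _ hT]
    have e1 : ∑ c ∈ Finset.range T,
        w c * (gN P x μ e c T + if c < P.K ∧ c ≠ T then g0 P x μ e c T else 0) ≤
        ∑ c ∈ Finset.range T, w c * (x.HN c + x.H0 c) := by
      apply Finset.sum_le_sum
      intro c hc
      have hc' := Finset.mem_range.1 hc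
      rw [if_pos ⟨by omega, by omega⟩]
      exact mul_le_mul_of_nonneg_left
        (add_le_add (hN c (by omega) T hc'.le) (h0 c (by omega) T hc'.le)) (hw c)
    have e2 : w T * (gN P x μ e T T + if T < P.K ∧ T ≠ T then g0 P x μ e T T else 0) ≤
        w P.K * x.HN T := by
      rw [if_neg (by simp), add_zero, hwT T le_rfl]
      exact mul_le_mul_of_nonneg_left (hN T hT T le_rfl) (hw _)
    have e3 : ∑ c ∈ Finset.Ioc T P.K,
        w c * (gN P x μ e c T + if c < P.K ∧ c ≠ T then g0 P x μ e c T else 0) ≤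
        w P.K * x.O3 T := by
      have e4 : ∑ c ∈ Finset.Ioc T P.K,
          w c * (gN P x μ e c T + if c < P.K ∧ c ≠ T then g0 P x μ e c T else 0) =
          w P.K * ∑ c ∈ Finset.Ioc T P.K,
            (gN P x μ e c T + if c < P.K then g0 P x μ e c T else 0) := by
        rw [Finset.mul_sum]
        apply Finset.sum_congr rfl
        intro c hc
        have hc' := Finset.mem_Ioc.1 hc
        rw [hwT c hc'.1.le]
        have e5 : (c < P.K ∧ c ≠ T) ↔ c < P.K := ⟨fun h => h.1, fun h => ⟨h, by omega⟩⟩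
        simp only [e5]
      rw [e4]
      exact mul_le_mul_of_nonneg_left (h3 T hT) (hw _)
    calc _ ≤ ∑ c ∈ Finset.range T, w c * (x.HN c + x.H0 c) + w P.K * x.HN T +
          w P.K * x.O3 T := add_le_add (add_le_add e1 e2) e3
      _ = _ := by ring
  have hb := bet_nonneg P
  have hM : (0 : ℝ) ≤ 1 / P.M := by positivity
  refine ⟨gN P x μ e, g0 P x μ e, g1 P x μ e, ?_⟩
  constructor
  · intro T a
    unfold gN
    split_ifs with h5
    · have := div_nonneg (oN_nonneg h h5 a) hμp.le
      linarith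
    · linarith
  · intro T a
    unfold g0
    split_ifs with h5
    · have := div_nonneg (o0_nonneg h h5 a) hμp.le
      linarith
    · linarith
  · intro T
    unfold g1
    split_ifs with h5
    · have := div_nonneg (o1_nonneg h h5) hμp.le
      linarith
    · linarith
  · intro T hT a ha
    have h5 := hgen T hT (fun c => wN P a c T) (fun c => h.nonwN a c T hT)
      (fun c hc => wN_eq P (nn_right hc hT a))
    have h6 : ∑ c ∈ Finset.range (P.K + 1),
        wN P a c T * (gN P x μ e c T + if c < P.K then g0 P x μ e c T else 0) =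
        ∑ c ∈ Finset.range (P.K + 1),
        wN P a c T * (gN P x μ e c T + if c < P.K ∧ c ≠ T then g0 P x μ e c T else 0) +
        wN P a P.K T * (if T < P.K then g0 P x μ e T T else 0) := by
      rw [split_sum _ hT, split_sum _ hT]
      have h7 : ∀ s : Finset ℕ, T ∉ s → ∑ c ∈ s,
        wN P a c T * (gN P x μ e c T + if c < P.K ∧ c ≠ T then g0 P x μ e c T else 0) =
        ∑ c ∈ s,
        wN P a c T * (gN P x μ e c T + if c < P.K then g0 P x μ e c T else 0) := by
        intro s hs
        apply Finset.sum_congr rfl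
        intro c hc
        have e5 : (c < P.K ∧ c ≠ T) ↔ c < P.K :=
          ⟨fun h => h.1, fun h => ⟨h, fun h' => hs (h' ▸ hc)⟩⟩
        simp only [e5]
      rw [h7 (Finset.range T) (by simp), h7 (Finset.Ioc T P.K) (by simp)]
      rw [wN_eq P (nn_right (le_refl T) hT a)]
      simp only [ne_eq, not_true_eq_false, and_false, if_false]
      ring
    have h8 : wN P a P.K T * (if T < P.K then g0 P x μ e T T else 0) ≤
        wN P a P.K T * (if T < P.K then x.H0 T else 0) := by
      apply mul_le_mul_of_nonneg_left _ (h.nonwN a P.K T hT)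
      split_ifs with h9
      · exact h0 T h9 T le_rfl
      · exact le_rfl
    have h9 : μ * gN P x μ e T a = oN P x T a + μ * e := by
      unfold gN
      rw [if_pos hT]
      field_simp
    have h10 : oN P x T a = ∑ c ∈ Finset.range T, wN P a c T * (x.HN c + x.H0 c) +
        wN P a P.K T * (x.HN T + x.O3 T) + wN P a P.K T * (if T < P.K then x.H0 T else 0) := by
      unfold oN
      ring
    rw [h6, h9, h10]
    have := mul_pos hμp he
    linarith
  · intro T hT a ha
    have h5 := hgen T hT.le (fun c => wS P a c T) (fun c => h.nonwS a c T hT)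
      (fun c hc => wS_eq P (nn_right hc hT.le a))
    have hwS : wS P a T T = wS P a P.K T := wS_eq P (nn_right (le_refl T) hT.le a)
    have hwA : wA P a T T = wA P a P.K T := wA_eq P (nn_right (le_refl T) hT.le a)
    have hS := h.nonwS a P.K T hT
    have hA := h.nonwA a P.K T hT
    have h9 : μ * g0 P x μ e T a = o0 P x T a + μ * e := by
      unfold g0
      rw [if_pos hT]
      field_simp
    have k1 : bet P * wS P a P.K T * g1 P x μ e T ≤ bet P * wS P a P.K T * x.H1 T :=
      mul_le_mul_of_nonneg_left (h1 T hT) (mul_nonneg hb hS)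
    have k2 : bet P * wA P a P.K T * g0 P x μ e T T ≤ bet P * wA P a P.K T * x.H0 T :=
      mul_le_mul_of_nonneg_left (h0 T hT T le_rfl) (mul_nonneg hb hA)
    have k3 : (1 / P.M) * wA P a P.K T * g1 P x μ e T ≤ (1 / P.M) * wA P a P.K T * x.H1 T :=
      mul_le_mul_of_nonneg_left (h1 T hT) (mul_nonneg hM hA)
    rw [h9, hwS, hwA]
    unfold o0
    have := mul_pos hμp he
    linarith
  · intro T hT
    have h5 := hgen T hT.le (fun c => wA P T c T) (fun c => h.nonwA T c T hT)
      (fun c hc => wA_eq P (nn_right hc hT.le T))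
    have hwA : wA P T T T = wA P T P.K T := wA_eq P (nn_right (le_refl T) hT.le T)
    have hA := h.nonwA T P.K T hT
    have h9 : μ * g1 P x μ e T = o1 P x T + μ * e := by
      unfold g1
      rw [if_pos hT]
      field_simp
    have k1 : bet P * wA P T P.K T * g1 P x μ e T ≤ bet P * wA P T P.K T * x.H1 T :=
      mul_le_mul_of_nonneg_left (h1 T hT) (mul_nonneg hb hA)
    have k2 : bet P * wA P T P.K T * g0 P x μ e T T ≤ bet P * wA P T P.K T * x.H0 T :=
      mul_le_mul_of_nonneg_left (h0 T hT T le_rfl) (mul_nonneg hb hA)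
    have k3 : (1 / P.M) * wA P T P.K T * g1 P x μ e T ≤ (1 / P.M) * wA P T P.K T * x.H1 T :=
      mul_le_mul_of_nonneg_left (h1 T hT) (mul_nonneg hM hA)
    rw [h9, hwA]
    unfold o1
    have := mul_pos hμp he
    linarith

end Pool.Agent.Helper51.Girth4.XC
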